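import Pool.Agent.H83.Tl1

set_option autoImplicit false

namespace Pool.Agent.Results.MP_2b9a36_lc.No

open Pool.Agent.H83.Ga

/-- A telograph-cototal degree that is not `n`-cylinder-cototal for any `n ≥ 1`. -/
theorem result : ∃ A : Set ℕ, Telograph A ∧ ∀ m : ℕ, ¬ CylJoin m A := tl_main

end Pool.Agent.Results.MP_2b9a36_lc.No
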